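import Mathlib

set_option autoImplicit false
set_option maxSynthPendingDepth 3

namespace Pool.Agent.Results.MP_c46995_nt.Proof

open PowerSeries Finset

/-- `1 / (1 - x ^ k)`. -/
noncomputable def geo (k : ℕ) : ℤ⟦X⟧ := PowerSeries.mk fun n => if k ∣ n then 1 else 0

/-- `S_{4,t}(n)`; factors with `i > n` do not affect the coefficient of `x ^ n`. -/
noncomputable def S (t n : ℕ) : ℤ :=
  coeff n (geo 1 ^ t * ∏ i ∈ range (n + 1), geo (4 ^ i) ^ (3 * t))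

lemma geo_mul {k : ℕ} (hk : k ≠ 0) : geo k * (1 - X ^ k) = 1 := by
  ext n
  rw [mul_sub, mul_one, map_sub, coeff_mul_X_pow', coeff_one]
  simp only [geo, coeff_mk]
  by_cases h : k ≤ n
  · simp [h, show n ≠ 0 by omega, (Nat.dvd_sub_iff_left h dvd_rfl)]
  · by_cases h0 : n = 0
    · simp [h0, hk]
    · simp [h, h0, Nat.not_dvd_of_pos_of_lt (Nat.pos_of_ne_zero h0) (not_le.1 h)]

lemma exp_geo (k : ℕ) : expand 4 four_ne_zero (geo k) = geo (4 * k) := by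
  ext n
  rw [coeff_expand]
  simp only [geo, coeff_mk]
  by_cases h : 4 ∣ n
  · obtain ⟨m, rfl⟩ := h
    simp [Nat.mul_dvd_mul_iff_left]
  · rw [if_neg h, if_neg fun h' => h (dvd_of_mul_right_dvd h')]

noncomputable def F (N : ℕ) : ℤ⟦X⟧ := geo 1 * ∏ i ∈ range N, geo (4 ^ i) ^ 3

lemma F_succ (N : ℕ) : F (N + 1) = geo 1 ^ 4 * (1 - X ^ 4) * expand 4 four_ne_zero (F N) := by
  simp only [F, map_mul, map_prod, map_pow, exp_geo, prod_range_succ', pow_zero, mul_one,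
    ← pow_succ']
  linear_combination (-geo 1 ^ 4 * ∏ i ∈ range N, geo (4 ^ (i + 1)) ^ 3) * geo_mul four_ne_zero

def c (n : ℕ) : ℤ := if n % 4 = 0 then 0 else if n % 2 = 1 then 2 else if n % 8 = 2 then 1 else 3

lemma R4 : ∃ E : ℤ⟦X⟧, (geo 1 ^ 4 * (1 - X ^ 4)) ^ 4 = 1 + 8 * PowerSeries.mk c + 32 * E := by
  have h1 : PowerSeries.mk c * (1 - X ^ 8) = C 2 * X ^ 1 + X ^ 2 + C 2 * X ^ 3 + C 2 * X ^ 5 +
      C 3 * X ^ 6 + C 2 * X ^ 7 := by
    ext n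
    rw [mul_sub, mul_one, map_sub, coeff_mul_X_pow']
    simp only [coeff_mk, map_add, coeff_C_mul, coeff_X_pow, c]
    split_ifs <;> omega
  have h2 := geo_mul (k := 8) (by norm_num)
  have h3 := congrArg (· ^ 16) (geo_mul one_ne_zero)
  simp only [map_ofNat, pow_one, mul_pow, one_pow] at h1 h3
  refine ⟨(4 * X ^ 2 - 39 * X ^ 3 + 201 * X ^ 4 - 694 * X ^ 5 + 1766 * X ^ 6 - 3513 * X ^ 7 +
    5698 * X ^ 8 - 7772 * X ^ 9 + 9075 * X ^ 10 - 9098 * X ^ 11 + 7800 * X ^ 12 - 5800 * X ^ 13 +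
    4043 * X ^ 14 - 3046 * X ^ 15 + 2558 * X ^ 16 - 2052 * X ^ 17 + 1357 * X ^ 18 - 687 * X ^ 19 +
    255 * X ^ 20 - 66 * X ^ 21 + 11 * X ^ 22 - X ^ 23) * geo 1 ^ 16 * geo 8, ?_⟩
  linear_combination (-8 * geo 8 * geo 1 ^ 16 * (1 - X) ^ 16) * h1 + (1 + 8 * PowerSeries.mk c) * h3
    + ((1 + 8 * PowerSeries.mk c) * geo 1 ^ 16 * (1 - X) ^ 16 - geo 1 ^ 16 * (1 - X ^ 4) ^ 4) * h2

lemma F4 (N : ℕ) : ∃ K E : ℤ⟦X⟧, F N ^ 4 = 1 + 2 ^ 3 * K + X ^ 4 ^ N * E ∧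
    ∀ n, 0 < n → n < 4 ^ N → ¬ 4 ∣ coeff n K := by
  induction N with
  | zero =>
    refine ⟨0, geo 1 * (1 + geo 1) * (1 + geo 1 ^ 2), ?_, fun n h1 h2 => by omega⟩
    simp only [F, range_zero, prod_empty, mul_one]
    linear_combination (1 + geo 1) * (1 + geo 1 ^ 2) * geo_mul one_ne_zero
  | succ N ih =>
    obtain ⟨K, E, h1, h2⟩ := ih
    obtain ⟨E', h3⟩ := R4
    refine ⟨PowerSeries.mk c + expand 4 four_ne_zero K + C 4 * (E' + (2 * PowerSeries.mk c + 8 * E')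
      * expand 4 four_ne_zero K), (1 + 8 * PowerSeries.mk c + 32 * E') * expand 4 four_ne_zero E,
      ?_, fun n n1 n2 => ?_⟩
    · rw [F_succ, mul_pow, h3, ← map_pow, h1]
      simp only [map_add, map_mul, map_pow, map_one, map_ofNat, expand_X, ← pow_mul, ← pow_succ']
      ring
    · rw [map_add, coeff_C_mul, dvd_add_left (dvd_mul_right _ _), map_add, coeff_expand, coeff_mk, c]
      split_ifs <;> try omega
      rw [zero_add]
      exact h2 _ (by omega) (by rw [pow_succ] at n2; omega)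

lemma pw {G K E Y : ℤ⟦X⟧} {a : ℤ⟦X⟧} (h : G = 1 + a * K + Y * E) (j : ℕ) :
    ∃ L E', G ^ j = 1 + a * (j * K) + a ^ 2 * L + Y * E' := by
  induction j with
  | zero => exact ⟨0, 0, by simp⟩
  | succ j ih =>
    obtain ⟨L, E', h'⟩ := ih
    exact ⟨L + j * K ^ 2 + a * K * L, E' * G + E * (1 + a * (j * K) + a ^ 2 * L), by
      rw [pow_succ, h', h]; push_cast; ring⟩

lemma Fs (N s : ℕ) : ∃ K E : ℤ⟦X⟧, F N ^ 2 ^ (s + 2) = 1 + 2 ^ (s + 3) * K + X ^ 4 ^ N * E ∧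
    ∀ n, 0 < n → n < 4 ^ N → ¬ 4 ∣ coeff n K := by
  induction s with
  | zero => exact F4 N
  | succ s ih =>
    obtain ⟨K, E, h1, h2⟩ := ih
    obtain ⟨L, E', h3⟩ := pw h1 2
    refine ⟨K + C 4 * (2 ^ s * L), E', ?_, fun n n1 n2 => ?_⟩
    · rw [pow_succ 2 (s + 2), pow_mul, h3, map_ofNat]; push_cast; ring
    · rw [map_add, coeff_C_mul, dvd_add_left (dvd_mul_right _ _)]
      exact h2 n n1 n2

lemma val {k l m : ℤ} (h : ¬ 4 ∣ k) (s j : ℕ) :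
    2 ^ j ∣ 2 ^ s * ((2 * m + 1) * k + 4 * l) ↔ 2 ^ j ∣ 2 ^ s * k := by
  rcases le_total j s with h1 | h1
  · exact iff_of_true ((pow_dvd_pow 2 h1).mul_right _) ((pow_dvd_pow 2 h1).mul_right _)
  · obtain ⟨d, rfl⟩ := Nat.exists_eq_add_of_le h1
    rw [pow_add, mul_dvd_mul_iff_left (by positivity), mul_dvd_mul_iff_left (by positivity)]
    have h2 : (2 * m + 1) * k + 4 * l = 2 * (m * k) + k + 4 * l := by ring
    rcases d with _ | _ | d
    · simp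
    · rw [h2]; omega
    · have h3 : (4 : ℤ) ∣ 2 ^ (d + 1 + 1) := Dvd.intro_left (2 ^ d) (by ring)
      refine iff_of_false (fun h4 => ?_) fun h4 => h (h3.trans h4)
      have h5 := h3.trans h4
      obtain ⟨e, rfl⟩ : 2 ∣ k := by omega
      rw [show (2 * m + 1) * (2 * e) + 4 * l = 4 * (m * e + l) + 2 * e by ring] at h5
      omega

/-- `φ₄(S_{4, 2^s m + 2^(s-1)}(n)) = φ₄(S_{4, 2^(s-1)}(n))`. -/
theorem result (s m n : ℕ) (hs : 3 ≤ s) :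
    emultiplicity 4 (S (2 ^ s * m + 2 ^ (s - 1)) n) = emultiplicity 4 (S (2 ^ (s - 1)) n) := by
  obtain ⟨s, rfl⟩ := Nat.exists_eq_add_of_le' hs
  have hS : ∀ t, S t n = coeff n (F (n + 1) ^ t) := fun t => by
    simp only [S, F, mul_pow, ← prod_pow, pow_mul]
  obtain ⟨K, E, h1, h2⟩ := Fs (n + 1) s
  obtain ⟨L, E', h3⟩ := pw h1 (2 * m + 1)
  have hn : n < 4 ^ (n + 1) := n.lt_succ_self.trans (Nat.lt_pow_self (by norm_num))
  rw [hS, hS, show s + 3 - 1 = s + 2 from rfl,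
    show 2 ^ (s + 3) * m + 2 ^ (s + 2) = 2 ^ (s + 2) * (2 * m + 1) by ring, pow_mul]
  rcases n.eq_zero_or_pos with rfl | h0
  · simp [F, geo]
  have e1 : (2 : ℤ⟦X⟧) ^ (s + 3) * (((2 * m + 1 : ℕ) : ℤ⟦X⟧) * K) + (2 ^ (s + 3)) ^ 2 * L =
      C (2 ^ (s + 3)) * (C (2 * m + 1 : ℤ) * K + C 4 * (2 ^ (s + 1) * L)) := by
    simp only [map_add, map_mul, map_pow, map_one, map_ofNat, map_natCast]; push_cast; ring
  have e2 : (2 : ℤ⟦X⟧) ^ (s + 3) = C (2 ^ (s + 3)) := by simp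
  rw [h3, h1, add_assoc 1, e1, e2]
  simp only [map_add (coeff n), coeff_C_mul, coeff_X_pow_mul', if_neg hn.not_ge, coeff_one,
    if_neg h0.ne', zero_add, add_zero]
  refine emultiplicity_eq_emultiplicity_iff.2 fun e => ?_
  rw [show (4 : ℤ) ^ e = 2 ^ (2 * e) by rw [pow_mul]; norm_num]
  exact val (h2 n h0 hn) _ _

end Pool.Agent.Results.MP_c46995_nt.Proof
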